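import Pool.Agent.Results.MP_b384de_nt.Div

namespace Pool.Agent.Results.MP_7a0dfe_nt.Strict

open Polynomial Finset Pool.Agent.H14.Bq

/-- The height of an integer polynomial: the largest absolute value of a coefficient. -/
def height (f : ℤ[X]) : ℕ := f.support.sup fun i => (f.coeff i).natAbs

theorem two_le {p q : ℕ} (hp : p.Prime) (hq : q.Prime) (hp3 : 3 ≤ p) (hpq : p < q) :
    ∃ k, 2 ≤ ((cyclotomic (p * q) ℤ * cyclotomic (q * q) ℤ).coeff k).natAbs := by
  have := Fact.mk hp
  have hq0 := hq.pos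
  set F := cyclotomic (p * q) ℤ * cyclotomic (q * q) ℤ with hF
  have h1 : cyclotomic p ℤ * F = expand ℤ q (cyclotomic p ℤ * cyclotomic q ℤ) := by
    rw [map_mul, cyclotomic_expand_eq_cyclotomic_mul hq (ndvd hp hq hpq),
      cyclotomic_expand_eq_cyclotomic hq dvd_rfl, hF]
    ring
  have h2 : X ^ p * F - F = X ^ 1 * expand ℤ q (cyclotomic p ℤ * cyclotomic q ℤ) -
      expand ℤ q (cyclotomic p ℤ * cyclotomic q ℤ) := by
    rw [← h1]
    have := cyclotomic_prime_mul_X_sub_one ℤ p
    linear_combination (-F) * this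
  have h3 := MP_b384de_nt.Div.lower hp hq hpq 1 0
  rw [map_one, mul_one, mul_zero, zero_add, coeff_one_zero, mul_one] at h3
  have hle : p ≤ q * (q - 1) + 1 := by
    have : q * 1 ≤ q * (q - 1) := Nat.mul_le_mul_left _ (by omega)
    omega
  have h4 := congrArg (fun f => coeff f (q * (q - 1) + 1)) h2
  simp only [coeff_sub] at h4
  rw [coeff_X_pow_mul', if_pos hle, coeff_X_pow_mul, coeff_expand hq0, coeff_expand hq0,
    if_pos (dvd_mul_right _ _), Nat.mul_div_cancel_left _ hq0, h3, if_neg (by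
      intro h
      have := (Nat.dvd_add_right (dvd_mul_right q (q - 1))).mp h
      have := Nat.le_of_dvd one_pos this
      omega)] at h4
  by_contra hc
  push Not at hc
  have a1 := hc (q * (q - 1) + 1 - p)
  have a2 := hc (q * (q - 1) + 1)
  omega

/-- For odd primes `p < q` and `b > 2`, the largest height `B` of a divisor of
`X ^ (p q ^ b) - 1` in `ℤ[X]` satisfies `B ≥ 2 p`, so `B > p`. -/
theorem result (p q b : ℕ) (hp : p.Prime) (hq : q.Prime) (hp2 : p ≠ 2) (hpq : p < q) (hb : 2 < b) :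
    ∃ B : ℕ, IsGreatest {h : ℕ | ∃ f : ℤ[X], f ∣ X ^ (p * q ^ b) - 1 ∧ height f = h} B ∧
      2 * p ≤ B ∧ p < B := by
  obtain ⟨B, hB, -⟩ := MP_b384de_nt.Div.result p q b hp hq hpq (by omega)
  have hp3 : 3 ≤ p := by have := hp.two_le; omega
  have hn : 0 < p * q ^ b := Nat.mul_pos hp.pos (pow_pos hq.pos _)
  obtain ⟨k, hk⟩ := two_le hp hq hp3 hpq
  have hdvd : cyclotomic p ℤ * cyclotomic q ℤ *
      expand ℤ q (cyclotomic (p * q) ℤ * cyclotomic (q * q) ℤ) ∣ X ^ (p * q ^ b) - 1 := by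
    rw [map_mul, cyclotomic_expand_eq_cyclotomic hq (dvd_mul_left _ _),
      cyclotomic_expand_eq_cyclotomic hq (dvd_mul_left _ _), ← prod_cyclotomic_eq_X_pow_sub_one hn]
    have h1 : q < p * q * q := by
      have h0 : 3 * 1 ≤ p * q := Nat.mul_le_mul hp3 hq.pos
      have := Nat.mul_le_mul_right q h0
      have := hq.pos
      omega
    have h2 : p * q * q < q * q * q := by
      have : 0 < q * q := Nat.mul_pos hq.pos hq.pos
      nlinarith
    have e : cyclotomic p ℤ * cyclotomic q ℤ * (cyclotomic (p * q * q) ℤ * cyclotomic (q * q * q) ℤ) =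
        ∏ d ∈ {p, q, p * q * q, q * q * q}, cyclotomic d ℤ := by
      rw [prod_insert (by simp; omega), prod_insert (by simp; omega), prod_insert (by simp; omega),
        prod_singleton]
      ring
    rw [e]
    apply prod_dvd_prod_of_subset
    obtain ⟨c, rfl⟩ : ∃ c, b = c + 3 := ⟨b - 3, by omega⟩
    intro d hd
    rw [Nat.mem_divisors]
    refine ⟨?_, hn.ne'⟩
    simp only [mem_insert, mem_singleton] at hd
    rcases hd with rfl | rfl | rfl | rfl
    · exact dvd_mul_right _ _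
    · exact ⟨p * d ^ (c + 2), by ring⟩
    · exact ⟨q ^ (c + 1), by ring⟩
    · exact ⟨p * q ^ c, by ring⟩
  have h1 := hB.2 ⟨_, hdvd, rfl⟩
  have h2 := MP_b384de_nt.Div.le_height (cyclotomic p ℤ * cyclotomic q ℤ *
    expand ℤ q (cyclotomic (p * q) ℤ * cyclotomic (q * q) ℤ)) (q * k + (q - 1))
  rw [MP_b384de_nt.Div.lower hp hq hpq, Int.natAbs_mul, Int.natAbs_natCast] at h2
  have h3 : 2 * p ≤ B := by nlinarith
  exact ⟨B, hB, h3, by omega⟩

end Pool.Agent.Results.MP_7a0dfe_nt.Strict
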